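import Pool.Agent.helper95.SP.SpecCH

/-!
# sp:KIND, separation with a product of weights
-/

namespace TP.K

open DP MeasureTheory

theorem IND_empty (B : Set V) : Loc (∅ : Set (V → Bool)) B :=
  ⟨∅, by simp, fun _ _ _ => by simp⟩

theorem IND_loc (hWB : WB_stmt) (x : V) (t : ℕ) (lo hi : ℕ → ℕ) (w : ℕ → (V → Bool) → ℝ)
    (r : ℕ) (J : ℕ) (hw : Wts x t J lo hi w) (hr : ∀ j < J, hi j ≤ r) :
    LocF (fun b => ∏ j ∈ Finset.range J, (1 - w j b)) (box x (2 ^ r)) := by
  obtain ⟨-, -, -, h4, h5, h6, -, -⟩ := hWB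
  have key : ∀ K : ℕ, K ≤ J →
      LocF (fun b => ∏ j ∈ Finset.range K, (1 - w j b)) (box x (2 ^ r)) := by
    intro K
    induction K with
    | zero =>
      intro _
      simpa using h6 1 (box x (2 ^ r))
    | succ K ih =>
      intro hK
      have h1 := ih (by omega)
      have h2 : LocF (w K) (box x (2 ^ r)) := by
        refine h5 _ _ _ ?_ (hw.loc K (by omega))
        intro v hv
        exact (hv.2 : sd x v ≤ 2 ^ hi K).trans
          (Nat.pow_le_pow_right (by norm_num) (hr K (by omega)))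
      have h8 := (h4 _ _ _ _ ∅ Set.univ h1 h2 (IND_empty _)).2.1
      have h9 := (h4 _ _ _ _ ∅ Set.univ h1 h8 (IND_empty _)).1
      rw [Set.union_self] at h9
      simpa only [Finset.prod_range_succ] using h9
  exact key J le_rfl

theorem IND_nonneg (x : V) (t : ℕ) (lo hi : ℕ → ℕ) (w : ℕ → (V → Bool) → ℝ)
    (J : ℕ) (hw : Wts x t J lo hi w) (b : V → Bool) :
    0 ≤ ∏ j ∈ Finset.range J, (1 - w j b) := by
  refine Finset.prod_nonneg fun j hj => ?_
  have := hw.half j (Finset.mem_range.1 hj) b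
  linarith

theorem IND_res {x : V} {t J : ℕ} {lo hi : ℕ → ℕ} {w : ℕ → (V → Bool) → ℝ}
    (hw : Wts x t (J + 1) lo hi w) : Wts x t J lo hi w where
  nonneg j hj := hw.nonneg j (by omega)
  half j hj := hw.half j (by omega)
  loc j hj := hw.loc j (by omega)
  start j hj := hw.start j (by omega)
  le j hj := hw.le j (by omega)
  gap j j' h h' := hw.gap j j' h (by omega)

theorem IND (hSEP : SEP_stmt) (hREC : REC_stmt) (hWB : WB_stmt) (hLQ : LQ_stmt) : IND_stmt := by
  obtain ⟨Cs, hCs, i₁, hS⟩ := hSEP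
  obtain ⟨C₀, hC₀, i₂, hR⟩ := hREC
  have hWB' := hWB
  obtain ⟨w1, w2, w3, w4, w5, w6, w7, -⟩ := hWB'
  obtain ⟨q1, q2, -, -, -, -⟩ := hLQ
  refine ⟨max Cs (4 * C₀), lt_of_lt_of_le hCs (le_max_left _ _), max i₁ i₂, ?_⟩
  set C := max Cs (4 * C₀) with hC
  have hC1 : Cs ≤ C := le_max_left _ _
  have hC2 : 4 * C₀ ≤ C := le_max_right _ _
  have hCp : 0 < C := lt_of_lt_of_le hCs hC1
  intro x t J lo hi w hx ht
  induction J with
  | zero =>
    intro hw i hi' _
    have h1 := hS x t i hx (le_trans (le_max_left _ _) ht) hi'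
    have h2 : 0 ≤ Pr (S4 x t (i + 1)) := by
      rw [← w1]
      exact w7 _ _ fun _ => zero_le_one
    simp only [Finset.range_zero, Finset.prod_empty]
    rw [w1, w1]
    exact h1.trans (mul_le_mul_of_nonneg_right hC1 h2)
  | succ J ih =>
    intro hw i hi' hhi
    have hwJ := IND_res hw
    have e1 : t + 6 ≤ lo J := hw.start J (by omega)
    have e2 : lo J ≤ hi J := hw.le J (by omega)
    have e3 : hi J + 3 ≤ i := hhi J (by omega)
    have e4 : ∀ j < J, hi j + 6 ≤ lo J := fun j hj => hw.gap j J hj (by omega)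
    have hA := ih hwJ (hi J + 1) (by omega) (fun j hj => by have := e4 j hj; omega)
    have l1 := IND_loc hWB x t lo hi w (hi J) J hwJ (fun j hj => by have := e4 j hj; omega)
    have l2 := IND_loc hWB x t lo hi w (hi J) (J + 1) hw (fun j hj => by
      rcases Nat.lt_succ_iff_lt_or_eq.1 hj with h | h
      · have := e4 j h; omega
      · subst h; exact le_rfl)
    have n1 := IND_nonneg x t lo hi w J hwJ
    have n2 := IND_nonneg x t lo hi w (J + 1) hw
    have m1 : ∀ b, ∏ j ∈ Finset.range (J + 1), (1 - w j b) ≤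
        ∏ j ∈ Finset.range J, (1 - w j b) := by
      intro b
      rw [Finset.prod_range_succ]
      have := hw.nonneg J (by omega) b
      nlinarith [n1 b]
    have m2 : ∀ b, ∏ j ∈ Finset.range J, (1 - w j b) ≤
        2 * ∏ j ∈ Finset.range (J + 1), (1 - w j b) := by
      intro b
      rw [Finset.prod_range_succ]
      have := hw.half J (by omega) b
      nlinarith [n1 b]
    have l3 : LocF (fun b => 2 * ∏ j ∈ Finset.range (J + 1), (1 - w j b)) (box x (2 ^ hi J)) := by
      have := (w4 _ _ _ _ ∅ Set.univ (w6 2 (box x (2 ^ hi J))) l2 (IND_empty _)).1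
      rwa [Set.union_self] at this
    have a1 : EZ (fun b => ∏ j ∈ Finset.range (J + 1), (1 - w j b)) (F4 x t (hi J + 1)) ≤
        EZ (fun b => ∏ j ∈ Finset.range J, (1 - w j b)) (F4 x t (hi J + 1)) :=
      w2 _ _ _ _ _ _ l2 l1 (q1 x t (hi J + 1)) (q1 x t (hi J + 1)) subset_rfl n2 m1
    have a2 : EZ (fun b => ∏ j ∈ Finset.range J, (1 - w j b)) (S4 x t (hi J + 2)) ≤
        2 * EZ (fun b => ∏ j ∈ Finset.range (J + 1), (1 - w j b)) (S4 x t (hi J + 2)) := by
      rw [← w3]
      exact w2 _ _ _ _ _ _ l1 l3 (q2 x t (hi J + 2) (by omega)) (q2 x t (hi J + 2) (by omega))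
        subset_rfl n1 m2
    have a3 : EZ (fun b => ∏ j ∈ Finset.range (J + 1), (1 - w j b)) (F4 x t (hi J + 1)) ≤
        (2 * C) * EZ (fun b => ∏ j ∈ Finset.range (J + 1), (1 - w j b)) (S4 x t (hi J + 2)) := by
      have := mul_le_mul_of_nonneg_left a2 hCp.le
      have hA' : EZ (fun b => ∏ j ∈ Finset.range J, (1 - w j b)) (F4 x t (hi J + 1)) ≤
        C * EZ (fun b => ∏ j ∈ Finset.range J, (1 - w j b)) (S4 x t (hi J + 2)) := hA
      linarith
    obtain ⟨k, rfl⟩ : ∃ k, i = hi J + 1 + (k + 2) := ⟨i - (hi J + 3), by omega⟩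
    have a4 := hR x t (hi J) _ (2 * C) hx (le_trans (le_max_right _ _) ht) (by omega) l2 n2
      (by positivity) a3 (k + 2)
    have e5 : hi J + 1 + (k + 2) + 1 = hi J + 2 + (k + 2) := by omega
    rw [e5]
    refine a4.trans (mul_le_mul_of_nonneg_right ?_ (w7 _ _ n2))
    have p1 : 2 * C / 2 ^ (k + 2) ≤ C / 2 := by
      have p2 : (1 : ℝ) ≤ 2 ^ k := one_le_pow₀ (by norm_num)
      rw [pow_add, div_le_iff₀ (by positivity)]
      nlinarith
    linarith

end TP.K
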